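import Mathlib

/-!
# Strong Roman domination: the constant 6/7 is false, and no constant below 1 is true

For every `ε > 0` there is a finite connected simple graph `G` of order `n ≥ 3` with
`γ_StR(G) > (1 - ε) n`.  With `ε = 1/7` this disproves `γ_StR(G) ≤ 6n/7`.

The graph: `2 ^ L` leaves `s`, and for each level `i ≤ L` and each leaf position `x` one vertex
`(i, x)` joined to all leaves `s` with `s / 2 ^ i = x / 2 ^ i`.
-/

open Finset
open scoped Classical

namespace Pool.Agent.Results.MP_fc66e6_co.StrongRomanLimit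

/-- `f` is a strong Roman dominating function of `G`: its values lie in
`{0, 1, ..., ⌈Δ/2⌉ + 1}` and every vertex `v` with `f v = 0` has a neighbour `w` with `f w ≥ 2` and
`f w ≥ 1 + ⌈|N(w) ∩ B₀| / 2⌉`, where `B₀` is the set of vertices of value `0`. -/
structure IsStRDF {V : Type} [Fintype V] (G : SimpleGraph V) (f : V → ℕ) : Prop where
  le_max : ∀ v, f v ≤ ⌈(G.maxDegree : ℚ) / 2⌉₊ + 1
  dom : ∀ v, f v = 0 → ∃ w, G.Adj v w ∧ 2 ≤ f w ∧
    1 + ⌈((univ.filter fun u => G.Adj w u ∧ f u = 0).card : ℚ) / 2⌉₊ ≤ f w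

/-- The strong Roman domination number: the least weight of a strong Roman dominating function. -/
noncomputable def gammaStR {V : Type} [Fintype V] (G : SimpleGraph V) : ℕ :=
  sInf {s | ∃ f : V → ℕ, IsStRDF G f ∧ s = ∑ v, f v}

/-- The constant function one is a strong Roman dominating function, so the set of weights in the
definition of `gammaStR` is never empty. -/
theorem isStRDF_one {V : Type} [Fintype V] (G : SimpleGraph V) : IsStRDF G (fun _ => 1) :=
  ⟨fun _ => by omega, fun v h => by simp at h⟩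

/-- The least weight is attained. -/
theorem exists_gammaStR {V : Type} [Fintype V] (G : SimpleGraph V) :
    ∃ f : V → ℕ, IsStRDF G f ∧ gammaStR G = ∑ v, f v :=
  Nat.sInf_mem (s := {s | ∃ f : V → ℕ, IsStRDF G f ∧ s = ∑ v, f v})
    ⟨_, fun _ => 1, isStRDF_one G, rfl⟩

/-- General lower bound: a strong Roman dominating function saves at most half a unit for every
zero vertex that has exactly one neighbour in the set `A` of defenders. -/
theorem weight_lower {V : Type} [Fintype V] (G : SimpleGraph V) (f : V → ℕ) (hf : IsStRDF G f) :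
    ∃ A : Finset V, 2 * Fintype.card V ≤
      2 * (∑ v, f v) + (univ.filter fun v => (A.filter fun w => G.Adj v w).card = 1).card := by
  set d : V → ℕ := fun w => (univ.filter fun u => G.Adj w u ∧ f u = 0).card with hd
  set A : Finset V := univ.filter fun w => 2 ≤ f w ∧ 1 + ⌈((d w : ℕ) : ℚ) / 2⌉₊ ≤ f w with hA
  refine ⟨A, ?_⟩
  set B : Finset V := univ.filter fun v => f v = 0 with hB
  -- pointwise bound
  have hpt : ∀ v, 2 * 1 ≤ 2 * f v + (if v ∈ B then 2 else 0) -
      (if v ∈ A then d v else 0) := by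
    intro v
    by_cases hvA : v ∈ A
    · have h1 := hvA
      rw [hA, mem_filter] at h1
      have hvB : v ∉ B := by
        rw [hB, mem_filter]
        rintro ⟨_, h0⟩
        omega
      rw [if_neg hvB, if_pos hvA]
      have h2 := h1.2.2
      have h3 : ((d v : ℕ) : ℚ) / 2 ≤ (⌈((d v : ℕ) : ℚ) / 2⌉₊ : ℚ) := Nat.le_ceil _
      have h4 : (d v : ℚ) ≤ ((2 * ⌈((d v : ℕ) : ℚ) / 2⌉₊ : ℕ) : ℚ) := by
        push_cast
        linarith
      have h5 : d v ≤ 2 * ⌈((d v : ℕ) : ℚ) / 2⌉₊ := by exact_mod_cast h4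
      omega
    · rw [if_neg hvA]
      by_cases hvB : v ∈ B
      · rw [if_pos hvB]; omega
      · rw [if_neg hvB]
        have : f v ≠ 0 := by
          intro h
          exact hvB (by rw [hB, mem_filter]; exact ⟨mem_univ _, h⟩)
        omega
  have hpt' : ∀ v, 2 + (if v ∈ A then d v else 0) ≤ 2 * f v + (if v ∈ B then 2 else 0) := by
    intro v
    have := hpt v
    omega
  have hsum : ∑ v : V, (2 + (if v ∈ A then d v else 0)) ≤
      ∑ v : V, (2 * f v + (if v ∈ B then 2 else 0)) := sum_le_sum fun v _ => hpt' v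
  rw [sum_add_distrib, sum_add_distrib, ← mul_sum, sum_const, card_univ, smul_eq_mul] at hsum
  have hdA : ∑ v : V, (if v ∈ A then d v else 0) = ∑ v ∈ B, (A.filter fun w => G.Adj v w).card := by
    rw [← sum_filter]
    have h1 : (univ.filter fun v => v ∈ A) = A := by ext; simp
    rw [h1]
    simp only [hd]
    have h2 : ∀ w ∈ A, (univ.filter fun u => G.Adj w u ∧ f u = 0).card =
        ∑ v ∈ B, if G.Adj v w then 1 else 0 := by
      intro w _
      rw [card_eq_sum_ones, sum_filter, hB, sum_filter]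
      refine sum_congr rfl fun u _ => ?_
      by_cases hu : f u = 0 <;> by_cases ha : G.Adj w u <;> simp [hu, ha, G.adj_comm u w]
    rw [sum_congr rfl h2, sum_comm]
    refine sum_congr rfl fun v _ => ?_
    rw [card_eq_sum_ones]
    exact (sum_filter (s := A) (fun w => G.Adj v w) (fun _ => 1)).symm
  have hBsum : ∑ v : V, (if v ∈ B then 2 else 0) = ∑ v ∈ B, 2 := by
    rw [← sum_filter]
    have h1 : (univ.filter fun v => v ∈ B) = B := by ext; simp
    rw [h1]
  rw [hdA, hBsum] at hsum
  have hB2 : ∑ v ∈ B, 2 ≤ ∑ v ∈ B, ((A.filter fun w => G.Adj v w).card +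
      if (A.filter fun w => G.Adj v w).card = 1 then 1 else 0) := by
    refine sum_le_sum fun v hv => ?_
    rw [hB, mem_filter] at hv
    obtain ⟨w, hw, hw2, hw3⟩ := hf.dom v hv.2
    have hpos : 0 < (A.filter fun w => G.Adj v w).card := by
      refine card_pos.2 ⟨w, ?_⟩
      rw [mem_filter, hA, mem_filter]
      exact ⟨⟨mem_univ _, hw2, hw3⟩, hw⟩
    split_ifs <;> omega
  rw [sum_add_distrib] at hB2
  have hB3 : ∑ v ∈ B, (if (A.filter fun w => G.Adj v w).card = 1 then 1 else 0) ≤
      (univ.filter fun v => (A.filter fun w => G.Adj v w).card = 1).card := by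
    have h3 : (univ.filter fun v => (A.filter fun w => G.Adj v w).card = 1).card =
        ∑ v : V, (if (A.filter fun w => G.Adj v w).card = 1 then 1 else 0) := by
      rw [card_eq_sum_ones, sum_filter]
    rw [h3]
    exact sum_le_sum_of_subset (subset_univ _)
  omega

/-- Number of pairs (level `i ≤ L`, position `x` in the `a`-th block of length `2 ^ L`) whose
`i`-block contains exactly one element of `A`. -/
def uniq (A : Finset ℕ) (L a : ℕ) : ℕ :=
  ∑ i ∈ range (L + 1), ((Ico (a * 2 ^ L) ((a + 1) * 2 ^ L)).filter fun x =>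
    (A.filter fun s => s / 2 ^ i = x / 2 ^ i).card = 1).card

theorem mem_block_iff {a L x : ℕ} : x ∈ Ico (a * 2 ^ L) ((a + 1) * 2 ^ L) ↔ x / 2 ^ L = a := by
  rw [mem_Ico, Nat.div_eq_iff (by positivity)]
  constructor
  · rintro ⟨h1, h2⟩
    refine ⟨by omega, ?_⟩
    have : 0 < (a + 1) * 2 ^ L := by positivity
    rw [Nat.add_mul, Nat.one_mul] at *
    omega
  · rintro ⟨h1, h2⟩
    refine ⟨by omega, ?_⟩
    rw [Nat.add_mul, Nat.one_mul]
    have : 0 < 2 ^ L := by positivity
    omega

theorem uniq_succ (A : Finset ℕ) (L a : ℕ) :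
    uniq A (L + 1) a = uniq A L (2 * a) + uniq A L (2 * a + 1) +
      ((Ico (a * 2 ^ (L + 1)) ((a + 1) * 2 ^ (L + 1))).filter fun x =>
        (A.filter fun s => s / 2 ^ (L + 1) = x / 2 ^ (L + 1)).card = 1).card := by
  unfold uniq
  rw [sum_range_succ, ← sum_add_distrib]
  congr 1
  refine sum_congr rfl fun i _ => ?_
  rw [← card_union_of_disjoint]
  · congr 1
    ext x
    simp only [mem_filter, mem_union, mem_Ico]
    have e1 : a * 2 ^ (L + 1) = 2 * a * 2 ^ L := by ring
    have e2 : (a + 1) * 2 ^ (L + 1) = (2 * a + 1 + 1) * 2 ^ L := by ring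
    have e3 : 2 * a * 2 ^ L ≤ (2 * a + 1) * 2 ^ L := Nat.mul_le_mul_right _ (by omega)
    have e4 : (2 * a + 1) * 2 ^ L ≤ (2 * a + 1 + 1) * 2 ^ L := Nat.mul_le_mul_right _ (by omega)
    rw [e1, e2]
    constructor
    · rintro ⟨⟨h1, h2⟩, h3⟩
      by_cases h : x < (2 * a + 1) * 2 ^ L
      · exact Or.inl ⟨⟨h1, h⟩, h3⟩
      · exact Or.inr ⟨⟨by omega, h2⟩, h3⟩
    · rintro (⟨⟨h1, h2⟩, h3⟩ | ⟨⟨h1, h2⟩, h3⟩)
      · exact ⟨⟨h1, by omega⟩, h3⟩
      · exact ⟨⟨by omega, h2⟩, h3⟩
  · rw [disjoint_left]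
    intro x h1 h2
    simp only [mem_filter, mem_Ico] at h1 h2
    omega

/-- If the block contains no element of `A` there are no uniquely covered pairs. -/
theorem uniq_eq_zero (A : Finset ℕ) (L a : ℕ) (h : A.filter (fun s => s / 2 ^ L = a) = ∅) :
    uniq A L a = 0 := by
  unfold uniq
  refine sum_eq_zero fun i hi => ?_
  rw [card_eq_zero, filter_eq_empty_iff]
  intro x hx hcard
  rw [mem_block_iff] at hx
  rw [card_eq_one] at hcard
  obtain ⟨s, hs⟩ := hcard
  have hs' : s ∈ A.filter fun s => s / 2 ^ i = x / 2 ^ i := by rw [hs]; simp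
  rw [mem_filter] at hs'
  have hiL : i ≤ L := by rw [mem_range] at hi; omega
  have h2 : s / 2 ^ L = a := by
    have e : 2 ^ L = 2 ^ i * 2 ^ (L - i) := by rw [← pow_add]; congr 1; omega
    rw [e, ← Nat.div_div_eq_div_mul, hs'.2, Nat.div_div_eq_div_mul, ← e, hx]
  have h3 : s ∈ A.filter (fun s => s / 2 ^ L = a) := by
    rw [mem_filter]; exact ⟨hs'.1, h2⟩
  rw [h] at h3
  simp at h3

/-- The unique coverage bound. -/
theorem uniq_le (A : Finset ℕ) (L : ℕ) : ∀ a, uniq A L a ≤ 2 * 2 ^ L := by
  induction L with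
  | zero =>
    intro a
    unfold uniq
    simp only [zero_add, range_one, sum_singleton, pow_zero, mul_one]
    refine (card_filter_le _ _).trans ?_
    simp
  | succ L ih =>
    intro a
    rw [uniq_succ]
    have hblock : ∀ x ∈ Ico (a * 2 ^ (L + 1)) ((a + 1) * 2 ^ (L + 1)),
        (A.filter fun s => s / 2 ^ (L + 1) = x / 2 ^ (L + 1)) =
        (A.filter fun s => s / 2 ^ (L + 1) = a) := by
      intro x hx
      rw [mem_block_iff] at hx
      rw [hx]
    by_cases hc : (A.filter fun s => s / 2 ^ (L + 1) = a).card = 1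
    · have hlast : ((Ico (a * 2 ^ (L + 1)) ((a + 1) * 2 ^ (L + 1))).filter fun x =>
          (A.filter fun s => s / 2 ^ (L + 1) = x / 2 ^ (L + 1)).card = 1).card ≤ 2 ^ (L + 1) := by
        refine (card_filter_le _ _).trans ?_
        rw [Nat.card_Ico, Nat.add_mul, Nat.one_mul, Nat.add_sub_cancel_left]
      obtain ⟨s, hs⟩ := card_eq_one.1 hc
      have key : ∀ b, b / 2 = a → b ≠ s / 2 ^ L → uniq A L b = 0 := by
        intro b hb hbs
        apply uniq_eq_zero
        rw [filter_eq_empty_iff]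
        intro t ht hb'
        have h1 : t ∈ A.filter fun s => s / 2 ^ (L + 1) = a := by
          rw [mem_filter]
          refine ⟨ht, ?_⟩
          rw [pow_succ, ← Nat.div_div_eq_div_mul, hb', hb]
        rw [hs, mem_singleton] at h1
        subst h1
        exact hbs hb'.symm
      have hih1 := ih (2 * a)
      have hih2 := ih (2 * a + 1)
      have hp : 2 ^ (L + 1) = 2 * 2 ^ L := by ring
      by_cases hb : 2 * a = s / 2 ^ L
      · have := key (2 * a + 1) (by omega) (by omega)
        omega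
      · have := key (2 * a) (by omega) hb
        omega
    · have hlast : ((Ico (a * 2 ^ (L + 1)) ((a + 1) * 2 ^ (L + 1))).filter fun x =>
          (A.filter fun s => s / 2 ^ (L + 1) = x / 2 ^ (L + 1)).card = 1) = ∅ := by
        rw [filter_eq_empty_iff]
        intro x hx
        rw [hblock x hx]
        exact hc
      rw [hlast, card_empty, add_zero]
      have hih1 := ih (2 * a)
      have hih2 := ih (2 * a + 1)
      have hp : 2 ^ (L + 1) = 2 * 2 ^ L := by ring
      omega

/-- The vertex set of the `L`-th graph. -/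
abbrev Vert (L : ℕ) : Type := Fin (2 ^ L) ⊕ (Fin (L + 1) × Fin (2 ^ L))

/-- The incidence between leaves and tree vertices. -/
def Inc (L : ℕ) (s : Fin (2 ^ L)) (p : Fin (L + 1) × Fin (2 ^ L)) : Prop :=
  s.val / 2 ^ p.1.val = p.2.val / 2 ^ p.1.val

/-- The `L`-th graph. -/
def treeGraph (L : ℕ) : SimpleGraph (Vert L) where
  Adj u v := match u, v with
    | Sum.inl s, Sum.inr p => Inc L s p
    | Sum.inr p, Sum.inl s => Inc L s p
    | _, _ => False
  symm := ⟨fun u v h => by
    rcases u with u | u <;> rcases v with v | v <;> simp_all⟩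
  loopless := ⟨fun u h => by rcases u with u | u <;> simp_all⟩

theorem adj_inl_inr (L : ℕ) (s : Fin (2 ^ L)) (p : Fin (L + 1) × Fin (2 ^ L)) :
    (treeGraph L).Adj (Sum.inl s) (Sum.inr p) ↔ Inc L s p := Iff.rfl

theorem adj_inr_inl (L : ℕ) (s : Fin (2 ^ L)) (p : Fin (L + 1) × Fin (2 ^ L)) :
    (treeGraph L).Adj (Sum.inr p) (Sum.inl s) ↔ Inc L s p := Iff.rfl

theorem not_adj_inr_inr (L : ℕ) (p q : Fin (L + 1) × Fin (2 ^ L)) :
    ¬ (treeGraph L).Adj (Sum.inr p) (Sum.inr q) := fun h => h

theorem card_vert (L : ℕ) : Fintype.card (Vert L) = 2 ^ L * (L + 2) := by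
  simp only [Vert, Fintype.card_sum, Fintype.card_fin, Fintype.card_prod]
  ring

theorem connected_treeGraph (L : ℕ) : (treeGraph L).Connected := by
  have hroot : ∀ s : Fin (2 ^ L), (treeGraph L).Reachable (Sum.inl s)
      (Sum.inr (Fin.last L, ⟨0, by positivity⟩)) := by
    intro s
    apply SimpleGraph.Adj.reachable
    rw [adj_inl_inr]
    unfold Inc
    simp only [Fin.val_last, Nat.zero_div]
    exact Nat.div_eq_of_lt s.2
  have hall : ∀ v : Vert L, (treeGraph L).Reachable v
      (Sum.inr (Fin.last L, ⟨0, by positivity⟩)) := by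
    rintro (s | p)
    · exact hroot s
    · refine SimpleGraph.Reachable.trans (SimpleGraph.Adj.reachable ?_) (hroot p.2)
      rw [adj_inr_inl]
      rfl
  exact { preconnected := fun u v => (hall u).trans (hall v).symm
          nonempty := ⟨Sum.inr (Fin.last L, ⟨0, by positivity⟩)⟩ }

/-- In the `L`-th graph every vertex set `A` covers at most `3 * 2 ^ L` vertices exactly once. -/
theorem unique_cover_le (L : ℕ) (A : Finset (Vert L)) :
    (univ.filter fun v => (A.filter fun w => (treeGraph L).Adj v w).card = 1).card ≤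
      3 * 2 ^ L := by
  set A' : Finset ℕ := (univ.filter fun s : Fin (2 ^ L) => Sum.inl s ∈ A).image
    (fun s => s.val) with hA'
  have hcount : ∀ p : Fin (L + 1) × Fin (2 ^ L),
      (A.filter fun w => (treeGraph L).Adj (Sum.inr p) w).card =
      (A'.filter fun s => s / 2 ^ p.1.val = p.2.val / 2 ^ p.1.val).card := by
    intro p
    symm
    refine card_bij' (s := A'.filter fun s => s / 2 ^ p.1.val = p.2.val / 2 ^ p.1.val)
      (t := A.filter fun w => (treeGraph L).Adj (Sum.inr p) w)
      (fun s _ => if h : s < 2 ^ L then Sum.inl ⟨s, h⟩ else Sum.inr p)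
      (fun w _ => Sum.elim (fun s => s.val) (fun _ => 0) w) ?_ ?_ ?_ ?_
    · intro s hs
      rw [mem_filter, hA', mem_image] at hs
      obtain ⟨⟨s', hs', rfl⟩, hs2⟩ := hs
      rw [mem_filter] at hs'
      rw [dif_pos s'.2, mem_filter]
      exact ⟨hs'.2, hs2⟩
    · intro w hw
      rw [mem_filter] at hw
      rcases w with s | q
      · simp only [Sum.elim_inl]
        rw [mem_filter, hA', mem_image]
        exact ⟨⟨s, by rw [mem_filter]; exact ⟨mem_univ _, hw.1⟩, rfl⟩, hw.2⟩
      · exact absurd hw.2 (not_adj_inr_inr L p q)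
    · intro s hs
      rw [mem_filter, hA', mem_image] at hs
      obtain ⟨⟨s', hs', rfl⟩, hs2⟩ := hs
      rw [dif_pos s'.2]
      rfl
    · intro w hw
      rw [mem_filter] at hw
      rcases w with s | q
      · exact dif_pos (c := s.val < 2 ^ L) s.2
      · exact absurd hw.2 (not_adj_inr_inr L p q)
  have hsplit : (univ.filter fun v : Vert L =>
      (A.filter fun w => (treeGraph L).Adj v w).card = 1).card =
      ∑ s : Fin (2 ^ L), (if (A.filter fun w => (treeGraph L).Adj (Sum.inl s) w).card = 1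
        then 1 else 0) +
      ∑ p : Fin (L + 1) × Fin (2 ^ L),
        (if (A.filter fun w => (treeGraph L).Adj (Sum.inr p) w).card = 1 then 1 else 0) := by
    rw [card_eq_sum_ones, sum_filter, Fintype.sum_sum_type]
  rw [hsplit]
  have h1 : ∑ s : Fin (2 ^ L), (if (A.filter fun w => (treeGraph L).Adj (Sum.inl s) w).card = 1
        then 1 else 0) ≤ 2 ^ L := by
    calc _ ≤ ∑ s : Fin (2 ^ L), 1 := sum_le_sum fun s _ => by split_ifs <;> omega
      _ = 2 ^ L := by simp
  have h2 : ∑ p : Fin (L + 1) × Fin (2 ^ L),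
        (if (A.filter fun w => (treeGraph L).Adj (Sum.inr p) w).card = 1 then 1 else 0) =
      uniq A' L 0 := by
    rw [Fintype.sum_prod_type]
    unfold uniq
    rw [← Fin.sum_univ_eq_sum_range (fun i => ((Ico (0 * 2 ^ L) ((0 + 1) * 2 ^ L)).filter fun x =>
      (A'.filter fun s => s / 2 ^ i = x / 2 ^ i).card = 1).card)]
    refine sum_congr rfl fun i _ => ?_
    rw [card_eq_sum_ones, sum_filter]
    have e : Ico (0 * 2 ^ L) ((0 + 1) * 2 ^ L) = range (2 ^ L) := by
      rw [zero_mul, zero_add, one_mul, range_eq_Ico]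
    rw [e, ← Fin.sum_univ_eq_sum_range (fun x =>
      if (A'.filter fun s => s / 2 ^ i.val = x / 2 ^ i.val).card = 1 then 1 else 0)]
    refine sum_congr rfl fun x _ => ?_
    rw [hcount (i, x)]
  rw [h2]
  have h3 := uniq_le A' L 0
  omega

/-- For every `L` the connected graph `treeGraph L` of order `n = (L + 2) 2 ^ L` has strong Roman
domination number at least `n - (3 / 2) 2 ^ L`. -/
theorem gamma_lower (L : ℕ) : 2 * (2 ^ L * (L + 2)) ≤ 2 * gammaStR (treeGraph L) + 3 * 2 ^ L := by
  obtain ⟨f, hf, hfe⟩ := exists_gammaStR (treeGraph L)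
  obtain ⟨A, hA⟩ := weight_lower (treeGraph L) f hf
  have := unique_cover_le L A
  rw [card_vert] at hA
  rw [hfe]
  omega

/-- **Theorem.** For every `ε > 0` there is a finite connected simple graph `G` of order `n ≥ 3`
with `γ_StR(G) > (1 - ε) n`.  In particular (`ε = 1/7`) the bound `γ_StR(G) ≤ 6n/7` fails. -/
theorem result : ∀ ε : ℝ, 0 < ε → ∃ (V : Type) (_ : Fintype V) (G : SimpleGraph V),
    G.Connected ∧ 3 ≤ Fintype.card V ∧ (1 - ε) * Fintype.card V < gammaStR G := by
  intro ε hε
  obtain ⟨L, hL⟩ := exists_nat_gt (2 / ε)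
  refine ⟨Vert (L + 1), inferInstance, treeGraph (L + 1), connected_treeGraph _, ?_, ?_⟩
  · rw [card_vert]
    have : 1 ≤ 2 ^ (L + 1) := Nat.one_le_two_pow
    nlinarith
  · have h := gamma_lower (L + 1)
    rw [card_vert]
    have h' : (2 * (2 ^ (L + 1) * ((L : ℝ) + 1 + 2))) ≤
        2 * (gammaStR (treeGraph (L + 1)) : ℝ) + 3 * 2 ^ (L + 1) := by exact_mod_cast h
    have hp : (0 : ℝ) < 2 ^ (L + 1) := by positivity
    have hεL : 2 < ε * L := by
      rw [div_lt_iff₀ hε] at hL
      linarith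
    push_cast
    nlinarith

end Pool.Agent.Results.MP_fc66e6_co.StrongRomanLimit
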